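/-
Problem MP_8999af_al, Q1 (continuity of products of homomorphisms which are of a Baire class):
the answer is no, for every number `n ≥ 4` of factors and already for Baire class one.

`G = ℤ₂ × Perm(ℤ₂)` (2-adic integers, additive, with their metric; the permutation group with the
discrete metric), `T_x` the translation by `x`, `τ = (0 1)`.  The maps
`V (x, h) = (1, τ T_x τ)` and `W (x, h) = (1, T_{-x})` are homomorphisms and
`V W V W (x, h) = (1, [τ, T_x τ T_x⁻¹])`, the commutator of the transpositions `(0 1)` and
`(x x+1)`, which is trivial except for `x = 1, -1`, where it is a 3-cycle.  So the product map is a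
pointwise limit of continuous (locally constant) maps, but it is discontinuous at `(1, h)`.  Further
factors are taken to be trivial homomorphisms.
-/
import Mathlib

set_option autoImplicit false

namespace Pool.Agent.Results.MP_8999af_al.FourFactors

/-! ### The notions of the problem -/

/-- Baire classes of maps: class `0` are the continuous maps; for an ordinal `α > 0`, the maps of
class `α` are the pointwise limits of sequences of maps each of which is of some class `< α`. -/
inductive OfClass {X Y : Type} [TopologicalSpace X] [TopologicalSpace Y] :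
    Ordinal.{0} → (X → Y) → Prop
  | zero (f : X → Y) (hf : Continuous f) : OfClass 0 f
  | lim (α : Ordinal.{0}) (hα : 0 < α) (f : ℕ → X → Y) (g : X → Y) (β : ℕ → Ordinal.{0})
      (hβ : ∀ k, β k < α) (hf : ∀ k, OfClass (β k) (f k))
      (hg : ∀ x, Filter.Tendsto (fun k => f k x) Filter.atTop (nhds (g x))) : OfClass α g

/-- The pointwise product `x ↦ U_1(x) U_2(x) ⋯ U_n(x)`. -/
def prodMap {G : Type} [Group G] {n : ℕ} (U : Fin n → G →* G) (x : G) : G :=
  (List.ofFn (fun i => U i x)).prod

/-! ### The example -/

open Equiv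

/-- discrete permutation group of the 2-adic integers -/
def D : Type := Equiv.Perm ℤ_[2]

noncomputable instance : Group D := inferInstanceAs (Group (Equiv.Perm ℤ_[2]))

open Classical in
noncomputable instance : MetricSpace D where
  dist := fun x y => if x = y then 0 else 1
  dist_self := fun x => by simp
  dist_comm := fun x y => by simp [eq_comm]
  dist_triangle := fun x y z => by
    by_cases h1 : x = y
    · subst h1; simp
    · by_cases h2 : y = z
      · subst h2; simp
      · simp only [h1, h2, if_false]
        split_ifs <;> norm_num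
  eq_of_dist_eq_zero := fun {x y} h => by
    by_contra hne
    simp [hne] at h

theorem D.dist_lt {x y : D} (h : dist x y < 1) : x = y := by
  classical
  by_contra hne
  have : dist x y = 1 := by
    show (if x = y then (0:ℝ) else 1) = 1
    simp [hne]
  linarith

instance : DiscreteTopology D := by
  rw [discreteTopology_iff_isOpen_singleton]
  intro x
  rw [Metric.isOpen_iff]
  intro y hy
  refine ⟨1, one_pos, ?_⟩
  intro z hz
  rw [Set.mem_singleton_iff] at hy ⊢
  subst hy
  exact D.dist_lt hz

instance : IsTopologicalGroup D where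
  continuous_mul := continuous_of_discreteTopology
  continuous_inv := continuous_of_discreteTopology

instance : CompleteSpace D := by
  apply Metric.complete_of_cauchySeq_tendsto
  intro u hu
  rw [Metric.cauchySeq_iff'] at hu
  obtain ⟨N, hN⟩ := hu 1 one_pos
  refine ⟨u N, ?_⟩
  apply tendsto_const_nhds.congr'
  filter_upwards [Filter.eventually_ge_atTop N] with n hn
  exact (D.dist_lt (hN n hn)).symm

/-- The group. -/
abbrev G : Type := Multiplicative ℤ_[2] × D

/-- the identity map from the permutation group to its copy `D` -/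
noncomputable def toD : Equiv.Perm ℤ_[2] →* D := MonoidHom.id (Equiv.Perm ℤ_[2])

theorem toD_inj {a b : Equiv.Perm ℤ_[2]} (h : toD a = toD b) : a = b := h

/-- translations -/
noncomputable def T (x : ℤ_[2]) : Equiv.Perm ℤ_[2] := Equiv.addLeft x

theorem T_apply (x y : ℤ_[2]) : T x y = x + y := rfl

theorem T_add (x y : ℤ_[2]) : T (x + y) = T x * T y := by
  apply Equiv.ext
  intro z
  exact add_assoc x y z

theorem T_zero : T 0 = 1 := by
  apply Equiv.ext
  intro z
  exact zero_add z

theorem T_neg (x : ℤ_[2]) : T (-x) = (T x)⁻¹ := by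
  rw [eq_inv_iff_mul_eq_one, ← T_add, neg_add_cancel, T_zero]

open Classical in
/-- the transposition `(0 1)` -/
noncomputable def tau : Equiv.Perm ℤ_[2] := Equiv.swap (0 : ℤ_[2]) 1

theorem tau_mul_tau : tau * tau = 1 := by
  classical exact Equiv.swap_mul_self _ _

theorem tau_inv : tau⁻¹ = tau := by
  rw [inv_eq_iff_mul_eq_one, tau_mul_tau]

/-- first homomorphism `(x, h) ↦ (1, τ T_x τ)` -/
noncomputable def V : G →* G where
  toFun := fun g => (1, toD (tau * T (Multiplicative.toAdd g.1) * tau⁻¹))
  map_one' := by
    have : T (Multiplicative.toAdd (1 : Multiplicative ℤ_[2])) = 1 := T_zero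
    simp only [Prod.fst_one, this, mul_one, mul_inv_cancel, map_one]
    rfl
  map_mul' := fun g h => by
    have : T (Multiplicative.toAdd (g.1 * h.1)) =
      T (Multiplicative.toAdd g.1) * T (Multiplicative.toAdd h.1) := T_add _ _
    simp only [Prod.fst_mul, this, Prod.mk_mul_mk, mul_one, ← map_mul]
    congr 2
    group

/-- second homomorphism `(x, h) ↦ (1, T_{-x})` -/
noncomputable def W : G →* G where
  toFun := fun g => (1, toD (T (- Multiplicative.toAdd g.1)))
  map_one' := by
    have : T (- Multiplicative.toAdd (1 : Multiplicative ℤ_[2])) = 1 := by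
      show T (- 0) = 1
      rw [neg_zero, T_zero]
    simp only [Prod.fst_one, this, map_one]
    rfl
  map_mul' := fun g h => by
    have : T (- Multiplicative.toAdd (g.1 * h.1)) =
      T (- Multiplicative.toAdd g.1) * T (- Multiplicative.toAdd h.1) := by
      rw [← T_add]
      congr 1
      show - (Multiplicative.toAdd g.1 + Multiplicative.toAdd h.1) = _
      ring
    simp only [Prod.fst_mul, this, Prod.mk_mul_mk, mul_one, map_mul]

/-- the value of the product map in the second coordinate -/
noncomputable def F (x : ℤ_[2]) : Equiv.Perm ℤ_[2] :=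
  tau * (T x * tau * (T x)⁻¹) * (tau * (T x * tau * (T x)⁻¹))

/-- the homomorphisms: `V, W, V, W` and then trivial ones -/
noncomputable def U (m : ℕ) (i : Fin (m + 4)) : G →* G :=
  if (i : ℕ) = 0 ∨ (i : ℕ) = 2 then V else if (i : ℕ) = 1 ∨ (i : ℕ) = 3 then W else 1

theorem prod_U (m : ℕ) (g : G) :
    (List.ofFn (fun i => U m i g)).prod = (1, toD (F (Multiplicative.toAdd g.1))) := by
  have h : ∀ i : Fin m, U m i.succ.succ.succ.succ g = 1 := by
    intro i
    unfold U
    have hv : ((i.succ.succ.succ.succ : Fin (m + 4)) : ℕ) = (i : ℕ) + 4 := by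
      simp only [Fin.val_succ]
    rw [hv, if_neg (by omega), if_neg (by omega)]
    rfl
  have h0 : U m 0 = V := by
    unfold U
    rw [if_pos (by simp)]
  have h1 : U m (Fin.succ 0) = W := by
    unfold U
    have hv : ((Fin.succ 0 : Fin (m + 4)) : ℕ) = 1 := rfl
    rw [hv, if_neg (by omega), if_pos (by omega)]
  have h2 : U m (Fin.succ (Fin.succ 0)) = V := by
    unfold U
    have hv : ((Fin.succ (Fin.succ 0) : Fin (m + 4)) : ℕ) = 2 := rfl
    rw [hv, if_pos (by omega)]
  have h3 : U m (Fin.succ (Fin.succ (Fin.succ 0))) = W := by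
    unfold U
    have hv : ((Fin.succ (Fin.succ (Fin.succ 0)) : Fin (m + 4)) : ℕ) = 3 := rfl
    rw [hv, if_neg (by omega), if_pos (by omega)]
  rw [List.ofFn_succ, List.prod_cons, List.ofFn_succ, List.prod_cons, List.ofFn_succ,
    List.prod_cons, List.ofFn_succ, List.prod_cons]
  have hr : (List.ofFn (fun i : Fin m => U m i.succ.succ.succ.succ g)).prod = 1 := by
    apply List.prod_eq_one
    intro y hy
    rw [List.mem_ofFn] at hy
    obtain ⟨i, rfl⟩ := hy
    exact h i
  rw [hr, h0, h1, h2, h3, mul_one]
  simp only [V, W, MonoidHom.coe_mk, OneHom.coe_mk, Prod.mk_mul_mk, mul_one, F, T_neg, tau_inv,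
    ← map_mul]
  refine Prod.ext rfl (congrArg toD ?_)
  show _ = _
  group

open Classical in
theorem conj_swap (x : ℤ_[2]) : T x * tau * (T x)⁻¹ = Equiv.swap x (x + 1) := by
  have h := Equiv.swap_apply_apply (T x) 0 1
  rw [T_apply, T_apply, add_zero] at h
  exact h.symm

theorem F_eq (x : ℤ_[2]) (h1 : x ≠ 1) (h2 : x ≠ -1) : F x = 1 := by
  classical
  by_cases h0 : x = 0
  · subst h0
    simp [F, T_zero, tau_mul_tau]
  · have hc : Commute tau (T x * tau * (T x)⁻¹) := by
      rw [conj_swap]
      apply Equiv.Perm.Disjoint.commute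
      unfold tau
      have hx : x + 1 ≠ 0 := fun h => h2 (eq_neg_of_add_eq_zero_left h)
      have hx' : x + 1 ≠ 1 := fun h => h0 (by simpa using h)
      intro y
      by_cases hy0 : y = 0
      · right
        subst hy0
        exact Equiv.swap_apply_of_ne_of_ne (Ne.symm h0) (Ne.symm hx)
      · by_cases hy1 : y = 1
        · right
          subst hy1
          exact Equiv.swap_apply_of_ne_of_ne (Ne.symm h1) (Ne.symm hx')
        · left
          exact Equiv.swap_apply_of_ne_of_ne hy0 hy1
    have h2 : F x = (tau * tau) * ((T x * tau * (T x)⁻¹) * (T x * tau * (T x)⁻¹)) := by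
      unfold F
      generalize T x * tau * (T x)⁻¹ = u at hc ⊢
      have := hc.eq
      calc tau * u * (tau * u) = tau * (u * tau) * u := by group
        _ = tau * (tau * u) * u := by rw [this]
        _ = _ := by group
    rw [h2, tau_mul_tau, one_mul]
    calc T x * tau * (T x)⁻¹ * (T x * tau * (T x)⁻¹) = T x * (tau * tau) * (T x)⁻¹ := by group
      _ = 1 := by rw [tau_mul_tau]; group

theorem F_one : F 1 ≠ 1 := by
  classical
  intro h
  have h3 : (F 1) 1 = 1 := by rw [h]; rfl
  unfold F at h3
  rw [conj_swap] at h3
  have e1 : (1 : ℤ_[2]) ≠ 0 := one_ne_zero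
  have e2 : (1 + 1 : ℤ_[2]) ≠ 0 := by norm_num
  have e3 : (1 + 1 : ℤ_[2]) ≠ 1 := by norm_num
  simp only [tau, Equiv.Perm.mul_apply, Equiv.swap_apply_left] at h3
  rw [Equiv.swap_apply_of_ne_of_ne e2 e3, Equiv.swap_apply_right, Equiv.swap_apply_right] at h3
  exact e1 h3.symm


/-- approximating maps -/
noncomputable def r (k : ℕ) : ℝ := 1 / ((k : ℝ) + 1)

theorem r_pos (k : ℕ) : 0 < r k := by unfold r; positivity

theorem r_tendsto : Filter.Tendsto r Filter.atTop (nhds 0) :=
  tendsto_one_div_add_atTop_nhds_zero_nat

open Classical in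
/-- approximating maps -/
noncomputable def Fk (k : ℕ) (x : ℤ_[2]) : D :=
  if dist x 1 ≤ r k then toD (F 1) else if dist x (-1) ≤ r k then toD (F (-1)) else 1

theorem Fk_continuous (k : ℕ) : Continuous (Fk k) := by
  classical
  have hcl : ∀ a : ℤ_[2], IsClopen {x : ℤ_[2] | dist x a ≤ r k} := fun a =>
    IsUltrametricDist.isClopen_closedBall a (r_pos k).ne'
  unfold Fk
  refine Continuous.if ?_ continuous_const (Continuous.if ?_ continuous_const continuous_const)
  · intro a ha
    rw [(hcl 1).frontier_eq] at ha
    exact absurd ha (Set.notMem_empty a)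
  · intro a ha
    rw [(hcl (-1)).frontier_eq] at ha
    exact absurd ha (Set.notMem_empty a)

theorem Fk_eventually (x : ℤ_[2]) : ∀ᶠ k in Filter.atTop, Fk k x = toD (F x) := by
  have hfar : ∀ a : ℤ_[2], x ≠ a → ∀ᶠ k in Filter.atTop, ¬ dist x a ≤ r k := by
    intro a hne
    have hd : 0 < dist x a := dist_pos.mpr hne
    filter_upwards [r_tendsto.eventually_lt_const hd] with k hk
    exact not_le.mpr hk
  by_cases h1 : x = 1
  · subst h1
    refine Filter.Eventually.of_forall fun k => ?_
    unfold Fk
    rw [if_pos]
    rw [dist_self]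
    exact (r_pos k).le
  · by_cases h2 : x = -1
    · filter_upwards [hfar 1 h1] with k hk
      unfold Fk
      rw [if_neg hk, if_pos, h2]
      rw [h2, dist_self]
      exact (r_pos k).le
    · filter_upwards [hfar 1 h1, hfar (-1) h2] with k hk hk'
      unfold Fk
      rw [if_neg hk, if_neg hk', F_eq x h1 h2, map_one]

theorem not_continuous_F : ¬ Continuous (fun x : ℤ_[2] => toD (F x)) := by
  intro h1
  have h2 : IsOpen {x : ℤ_[2] | toD (F x) = toD (F 1)} :=
    (isOpen_discrete ({toD (F 1)} : Set D)).preimage h1
  rw [Metric.isOpen_iff] at h2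
  obtain ⟨ε, hε, hball⟩ := h2 1 rfl
  obtain ⟨n, hn⟩ := PadicInt.exists_pow_neg_lt 2 hε
  have hx : (1 + 2 ^ (n + 2) : ℤ_[2]) ∈ Metric.ball (1 : ℤ_[2]) ε := by
    rw [Metric.mem_ball, dist_eq_norm, add_sub_cancel_left]
    refine lt_of_le_of_lt ?_ hn
    have := PadicInt.norm_p_pow (p := 2) (n + 2)
    push_cast at this ⊢
    rw [this]
    apply zpow_le_zpow_right₀ (by norm_num)
    omega
  have h3 := toD_inj (hball hx)
  rw [F_eq] at h3
  · exact F_one h3.symm
  · intro h
    have : (2 : ℤ_[2]) ^ (n + 2) = 0 := by linear_combination h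
    exact pow_ne_zero _ two_ne_zero this
  · intro h
    have h4 : ((1 + 2 ^ (n + 2) + 1 : ℕ) : ℤ_[2]) = 0 := by
      push_cast
      linear_combination h
    rw [Nat.cast_eq_zero] at h4
    exact absurd h4 (Nat.succ_ne_zero _)



/-- For every `n ≥ 4` there are a non-abelian complete metric group `G` and homomorphisms
`U_1, …, U_n : G → G` such that the pointwise product `U_1 ⋯ U_n` is of Baire class one but is not
continuous. -/
theorem result (n : ℕ) (hn : 4 ≤ n) :
    ∃ (G : Type) (_ : Group G) (_ : MetricSpace G),
      Continuous (fun p : G × G => p.1 * p.2) ∧ Continuous (fun x : G => x⁻¹) ∧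
      CompleteSpace G ∧ (∃ a b : G, a * b ≠ b * a) ∧
      ∃ U : Fin n → G →* G, OfClass 1 (prodMap U) ∧ ¬ Continuous (prodMap U) := by
  obtain ⟨m, rfl⟩ : ∃ m, n = m + 4 := ⟨n - 4, by omega⟩
  have hU : prodMap (U m) = fun g : G => ((1, toD (F (Multiplicative.toAdd g.1))) : G) :=
    funext fun g => prod_U m g
  refine ⟨G, inferInstance, inferInstance, continuous_mul, continuous_inv, inferInstance, ?_,
    U m, ?_, ?_⟩
  · -- non-commutativity
    refine ⟨(1, toD tau), (1, toD (T 1)), ?_⟩
    intro h
    have h1 : toD (tau * T 1) = toD (T 1 * tau) := by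
      rw [map_mul, map_mul]
      exact congrArg Prod.snd h
    have h2 := toD_inj h1
    have h3 : F 1 = 1 := by
      unfold F
      rw [← h2, mul_inv_cancel_right, tau_mul_tau, mul_one]
    exact F_one h3
  · -- the product map is a pointwise limit of continuous maps
    refine OfClass.lim 1 zero_lt_one
      (fun k g => ((1, Fk k (Multiplicative.toAdd g.1)) : G)) _ (fun _ => 0)
      (fun _ => zero_lt_one) ?_ ?_
    · intro k
      exact OfClass.zero _ (Continuous.prodMk continuous_const
        ((Fk_continuous k).comp continuous_fst))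
    · intro g
      rw [hU]
      apply tendsto_const_nhds.congr'
      filter_upwards [Fk_eventually (Multiplicative.toAdd g.1)] with k hk
      rw [hk]
  · -- the product map is not continuous
    intro hcont
    rw [hU] at hcont
    apply not_continuous_F
    have : Continuous (fun x : ℤ_[2] => ((Multiplicative.ofAdd x, 1) : G)) :=
      Continuous.prodMk continuous_id continuous_const
    exact continuous_snd.comp (hcont.comp this)

end Pool.Agent.Results.MP_8999af_al.FourFactors
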